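import Pool.Agent.H7.TRI.Stmts

/-! Row CTR of board tri (MP_fd41b2_co). -/

set_option autoImplicit false

open Finset

namespace Pool.TRI

/-- **CTR** -/
theorem CTR_thm (hETB : ETBStmt) (hEXF : EXFStmt) (hOUT : OUTStmt) : CTRStmt := by
  classical
  intro V _ _ G d m hH C hC w hw
  obtain ⟨h1, -, -, h4⟩ := hOUT V G d m hH C hC w hw
  rw [hEXF V G d w]
  have hsplit : nb G w ∩ C = SS G C ∪ (XX G C ∩ nb G w) := by
    ext u
    rw [mem_inter, mem_union, mem_inter, mem_SS, mem_XX]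
    constructor
    · rintro ⟨hu, huC⟩
      by_cases h : cn G u = C
      · exact Or.inl ⟨huC, h⟩
      · exact Or.inr ⟨⟨huC, h⟩, hu⟩
    · rintro (h | h)
      · exact ⟨(h4 u (mem_SS.2 h)).1, h.1⟩
      · exact ⟨h.2, h.1.1⟩
  have hdis : Disjoint (SS G C) (XX G C ∩ nb G w) := by
    rw [disjoint_left]
    intro u hu hu'
    exact (mem_XX.1 (mem_inter.1 hu').1).2 (mem_SS.1 hu).2
  have hsum := sum_inter_add_sum_sdiff (nb G w) C (fun u => et G d w u - 1)
  rw [hsplit, sum_union hdis] at hsum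
  have hSS : ∑ u ∈ SS G C, (et G d w u - 1) = ((SS G C).card : ℤ) * ((df G C w : ℤ) - 1) := by
    rw [← nsmul_eq_mul, ← sum_const]
    refine sum_congr rfl fun u hu => ?_
    rw [(h4 u hu).2]
  have hXX : -(tw G d C w : ℤ) ≤ ∑ u ∈ XX G C ∩ nb G w, (et G d w u - 1) := by
    have h5 : -(tw G d C w : ℤ) =
        ∑ u ∈ XX G C ∩ nb G w, (if et G d w u ≤ 0 then (-1 : ℤ) else 0) := by
      rw [← sum_filter, sum_const, tw, nsmul_eq_mul]
      ring
    rw [h5]
    refine sum_le_sum fun u hu => ?_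
    have h6 := (hETB V G d m hH w u (mem_nb.1 (mem_inter.1 hu).2)).2.1
    split_ifs with h7
    · linarith
    · omega
  have h8 : (d : ℤ) - ((nb G w).card : ℤ) = (df G C w : ℤ) - ((nb G w \ C).card : ℤ) := by
    have : ((nb G w).card : ℤ) + (df G C w : ℤ) = (d : ℤ) + ((nb G w \ C).card : ℤ) := by
      exact_mod_cast h1
    linarith
  rw [h8, ← hsum, hSS]
  linarith

end Pool.TRI
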