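import Pool.Agent.H7.TRI.Stmts

/-! Row PZS of board tri (MP_fd41b2_co): twins pay nothing. -/

set_option autoImplicit false

open Finset

namespace Pool.TRI

/-- **PZS** -/
theorem PZS_thm (hDSJ : DSJStmt) : PZSStmt := by
  classical
  intro V _ _ G d m hH C hC v hv
  obtain ⟨hvC, hcn⟩ := mem_SS.1 hv
  unfold pay
  refine sum_eq_zero fun C' hC' => sum_eq_zero fun w hw => ?_
  exfalso
  rw [mem_filter] at hC'
  rw [mem_inter] at hw
  obtain ⟨hC'R, hvC'⟩ := hC'
  have hne : C ≠ C' := by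
    rintro rfl
    exact hvC' hvC
  have hdis := hDSJ V G d m hH C hC C' hC'R hne
  have hwC' : w ∈ C' := (mem_Iso.1 hw.1).1
  have hwC : w ∈ C := by
    rw [← hcn, mem_cn]
    exact Or.inr (mem_nb.1 hw.2)
  exact (disjoint_left.1 hdis) hwC hwC'

end Pool.TRI
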